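import Mathlib

set_option autoImplicit false

/-! Structure of the finite Goldbach graphs modulo 2 and 3: distances and counting. -/

namespace Pool.Agent.H480.GG

/-- `1` or an odd prime -/
def P (m : ℕ) : Prop := m = 1 ∨ (m.Prime ∧ m % 2 = 1)

lemma P_odd {m : ℕ} (h : P m) : m % 2 = 1 := by
  rcases h with rfl | h
  · rfl
  · exact h.2

lemma P_three {m : ℕ} (h : P m) (h3 : m % 3 = 0) : m = 3 := by
  rcases h with rfl | h
  · omega
  · exact ((Nat.prime_dvd_prime_iff_eq Nat.prime_three h.1).mp (Nat.dvd_of_mod_eq_zero h3)).symm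

lemma P_prime {m : ℕ} (h : P m) (h1 : m ≠ 1) : m.Prime := by
  rcases h with rfl | h
  · exact absurd rfl h1
  · exact h.1

lemma edge {x y : ℕ} (h1 : P (x + y)) (h2 : P (Nat.dist x y)) :
    (x + y) % 2 = 1 ∧
    (x % 3 ≠ 0 → y % 3 ≠ 0 →
      (y = x + 3 ∧ P (2 * x + 3)) ∨ (x = y + 3 ∧ P (2 * y + 3)) ∨ x + y = 3) ∧
    (x % 3 = 0 → y % 3 = 0 → x + y = 3) := by
  refine ⟨P_odd h1, ?_, ?_⟩
  · intro hx hy
    by_cases h : (x + y) % 3 = 0
    · exact Or.inr (Or.inr (P_three h1 h))
    · have h3 : (Nat.dist x y) % 3 = 0 := by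
        have hx' : x % 3 = 1 ∨ x % 3 = 2 := by omega
        have hy' : y % 3 = 1 ∨ y % 3 = 2 := by omega
        rcases le_total x y with h5 | h5
        · rw [Nat.dist_eq_sub_of_le h5]
          rcases hx' with hx' | hx' <;> rcases hy' with hy' | hy' <;> omega
        · rw [Nat.dist_eq_sub_of_le_right h5]
          rcases hx' with hx' | hx' <;> rcases hy' with hy' | hy' <;> omega
      have h4 := P_three h2 h3
      unfold Nat.dist at h4
      rcases le_total x y with h5 | h5
      · have h6 : y = x + 3 := by omega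
        left
        refine ⟨h6, ?_⟩
        rw [h6] at h1
        have : x + (x + 3) = 2 * x + 3 := by ring
        rwa [this] at h1
      · have h6 : x = y + 3 := by omega
        right; left
        refine ⟨h6, ?_⟩
        rw [h6] at h1
        have : y + 3 + y = 2 * y + 3 := by ring
        rwa [this] at h1
  · intro hx hy
    exact P_three h1 (by omega)

/-- not divisible by three, and not on any exceptional edge -/
def Good (x : ℕ) : Prop :=
  x % 3 ≠ 0 ∧ 5 < x ∧ ¬ x.Prime ∧ ¬ (2 * x + 3).Prime ∧ ¬ (2 * x - 3).Prime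

lemma good_edge {x y : ℕ} (hx : Good x) (h1 : P (x + y)) (h2 : P (Nat.dist x y)) :
    y % 3 = 0 ∧ y ≠ 0 := by
  obtain ⟨a1, a2, a3, a4, a5⟩ := hx
  obtain ⟨e1, e2, e3⟩ := edge h1 h2
  constructor
  · by_contra hy
    rcases e2 a1 hy with ⟨h3, h4⟩ | ⟨h3, h4⟩ | h3
    · exact a4 (P_prime h4 (by omega))
    · apply a5
      have : 2 * x - 3 = 2 * y + 3 := by omega
      rw [this]
      exact P_prime h4 (by omega)
    · omega
  · rintro rfl
    rw [add_zero] at h1
    exact a3 (P_prime h1 (by omega))

/-- a graph whose vertices are numbered by `0, …, n` or `1, …, n` such that the edges are edges of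
the near Goldbach graph or `{0, 3}` -/
structure Model {V : Type} (G : SimpleGraph V) (f : V → ℕ) (n : ℕ) : Prop where
  inj : Function.Injective f
  le : ∀ v, f v ≤ n
  surj : ∀ x, 1 ≤ x → x ≤ n → ∃ v, f v = x
  adj : ∀ u v, G.Adj u v → P (f u + f v) ∧ P (Nat.dist (f u) (f v))

section
variable {V : Type} {G : SimpleGraph V} {f : V → ℕ} {n : ℕ}

lemma Model.symm (M : Model G f n) {u v : V} (h : G.Adj u v) :
    P (f v + f u) ∧ P (Nat.dist (f v) (f u)) := M.adj v u h.symm

lemma Model.par (M : Model G f n) {u v : V} (h : G.Adj u v) : (f u + f v) % 2 = 1 :=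
  P_odd (M.adj u v h).1

lemma dist5 (M : Model G f n) {u v : V} (hu : Good (f u)) (hv : Good (f v))
    (hp : (f u + f v) % 2 = 1) : 5 ≤ G.edist u v := by
  by_contra hcon
  push Not at hcon
  obtain ⟨w, hw⟩ := SimpleGraph.exists_walk_of_edist_ne_top (ne_top_of_lt hcon)
  rw [← hw] at hcon
  have hlen : w.length < 5 := by exact_mod_cast hcon
  clear hw hcon
  cases w with
  | nil => omega
  | @cons _ x _ e1 w =>
    have p1 := M.par e1
    have g1 := good_edge hu (M.adj _ _ e1).1 (M.adj _ _ e1).2
    cases w with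
    | nil => exact hv.1 g1.1
    | @cons _ y _ e2 w =>
      have p2 := M.par e2
      cases w with
      | nil => omega
      | @cons _ z _ e3 w =>
        have p3 := M.par e3
        cases w with
        | nil =>
          have g2 := good_edge hv (M.symm e3).1 (M.symm e3).2
          have g3 := (edge (M.adj _ _ e2).1 (M.adj _ _ e2).2).2.2 g1.1 g2.1
          omega
        | @cons _ t _ e4 w =>
          have p4 := M.par e4
          cases w with
          | nil => omega
          | cons e5 w =>
            simp only [SimpleGraph.Walk.length_cons] at hlen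
            omega

lemma dist4 (M : Model G f n) {u v : V} (hu : f u % 3 = 0) (hu0 : f u ≠ 0) (hv : Good (f v))
    (hp : (f u + f v) % 2 = 0) : 4 ≤ G.edist u v := by
  by_contra hcon
  push Not at hcon
  obtain ⟨w, hw⟩ := SimpleGraph.exists_walk_of_edist_ne_top (ne_top_of_lt hcon)
  rw [← hw] at hcon
  have hlen : w.length < 4 := by exact_mod_cast hcon
  clear hw hcon
  cases w with
  | nil => exact hv.1 hu
  | @cons _ x _ e1 w =>
    have p1 := M.par e1
    cases w with
    | nil => omega
    | @cons _ y _ e2 w =>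
      have p2 := M.par e2
      cases w with
      | nil =>
        have g2 := good_edge hv (M.symm e2).1 (M.symm e2).2
        have g3 := (edge (M.adj _ _ e1).1 (M.adj _ _ e1).2).2.2 hu g2.1
        omega
      | @cons _ z _ e3 w =>
        have p3 := M.par e3
        cases w with
        | nil => omega
        | cons e5 w =>
          simp only [SimpleGraph.Walk.length_cons] at hlen
          omega

lemma dist3 (M : Model G f n) {u v : V} (hp : (f u + f v) % 2 = 1) (ha : ¬ G.Adj u v) :
    3 ≤ G.edist u v := by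
  by_contra hcon
  push Not at hcon
  obtain ⟨w, hw⟩ := SimpleGraph.exists_walk_of_edist_ne_top (ne_top_of_lt hcon)
  rw [← hw] at hcon
  have hlen : w.length < 3 := by exact_mod_cast hcon
  clear hw hcon
  cases w with
  | nil => omega
  | @cons _ x _ e1 w =>
    have p1 := M.par e1
    cases w with
    | nil => exact ha e1
    | @cons _ y _ e2 w =>
      have p2 := M.par e2
      cases w with
      | nil => omega
      | cons e5 w =>
        simp only [SimpleGraph.Walk.length_cons] at hlen
        omega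

/-- one half of the vertices -/
def Half (x : ℕ) : Prop := (x % 3 = 0 ↔ x % 2 = 0)

/-- the crossing edges -/
lemma crossing (M : Model G f n) {u v : V} (h : G.Adj u v) (hu : Half (f u)) (hv : ¬ Half (f v)) :
    (f v = f u + 3 ∧ (2 * f u + 3).Prime) ∨ (f u = f v + 3 ∧ (2 * f v + 3).Prime) ∨
      f u + f v = 3 := by
  obtain ⟨e1, e2, e3⟩ := edge (M.adj _ _ h).1 (M.adj _ _ h).2
  unfold Half at hu hv
  by_cases h1 : f u % 3 = 0
  · by_cases h2 : f v % 3 = 0
    · exact Or.inr (Or.inr (e3 h1 h2))
    · exfalso; omega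
  · by_cases h2 : f v % 3 = 0
    · exfalso; omega
    · rcases e2 h1 h2 with h3 | h3 | h3
      · exact Or.inl ⟨h3.1, P_prime h3.2 (by omega)⟩
      · exact Or.inr (Or.inl ⟨h3.1, P_prime h3.2 (by omega)⟩)
      · exact Or.inr (Or.inr h3)

lemma Model.finite (M : Model G f n) : Finite V :=
  Finite.of_injective (fun v => (⟨f v, Nat.lt_succ_of_le (M.le v)⟩ : Fin (n + 1)))
    (fun a b h => M.inj (by simpa using h))

lemma count_ge (M : Model G f n) (Q : ℕ → Prop) [DecidablePred Q] :
    ((Finset.Icc 1 n).filter Q).card ≤ {v | Q (f v)}.ncard := by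
  have := M.finite
  rw [← Set.ncard_image_of_injective _ M.inj, ← Set.ncard_coe_finset]
  apply Set.ncard_le_ncard _ (Set.toFinite _)
  intro x hx
  simp only [Finset.coe_filter, Finset.mem_Icc, Set.mem_ofPred_eq] at hx
  obtain ⟨v, rfl⟩ := M.surj x hx.1.1 hx.1.2
  exact ⟨v, hx.2, rfl⟩

lemma count_le (M : Model G f n) (Q : ℕ → Prop) [DecidablePred Q] :
    {v | Q (f v)}.ncard ≤ ((Finset.range (n + 1)).filter Q).card := by
  rw [← Set.ncard_image_of_injective _ M.inj, ← Set.ncard_coe_finset]
  apply Set.ncard_le_ncard _ (Set.toFinite _)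
  rintro x ⟨v, hv, rfl⟩
  simp only [Finset.coe_filter, Finset.mem_range, Set.mem_ofPred_eq]
  exact ⟨Nat.lt_succ_of_le (M.le v), hv⟩

lemma total_le (M : Model G f n) (X : Set V) : X.ncard ≤ n + 1 := by
  have := M.finite
  calc X.ncard ≤ {v : V | (fun _ => True) (f v)}.ncard :=
        Set.ncard_le_ncard (fun v _ => trivial) (Set.toFinite _)
    _ ≤ ((Finset.range (n + 1)).filter (fun _ => True)).card := count_le M (fun _ => True)
    _ ≤ (Finset.range (n + 1)).card := Finset.card_filter_le _ _
    _ = n + 1 := Finset.card_range _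

end

lemma res_count (n q r : ℕ) (hr : r < q) :
    n / q ≤ ((Finset.Icc 1 n).filter (fun x => x % q = r)).card := by
  have hq : 0 < q := by omega
  obtain ⟨s, hs1, hs2, hs3⟩ : ∃ s, 1 ≤ s ∧ s ≤ q ∧ s % q = r := by
    rcases Nat.eq_zero_or_pos r with rfl | h
    · exact ⟨q, hq, le_rfl, Nat.mod_self q⟩
    · exact ⟨r, h, hr.le, Nat.mod_eq_of_lt hr⟩
  calc n / q = ((Finset.range (n / q)).image (fun j => q * j + s)).card := by
        rw [Finset.card_image_of_injective _ (fun a b h => ?_), Finset.card_range]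
        have h' : q * a + s = q * b + s := h
        exact Nat.eq_of_mul_eq_mul_left hq (by omega)
    _ ≤ _ := by
        apply Finset.card_le_card
        intro x hx
        rw [Finset.mem_image] at hx
        obtain ⟨j, hj, rfl⟩ := hx
        rw [Finset.mem_range] at hj
        rw [Finset.mem_filter, Finset.mem_Icc]
        have h1 : q * (j + 1) ≤ q * (n / q) := Nat.mul_le_mul_left q hj
        have h2 : q * (n / q) ≤ n := Nat.mul_div_le n q
        have h3 : q * (j + 1) = q * j + q := by ring
        refine ⟨⟨by omega, by omega⟩, ?_⟩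
        rw [Nat.mul_add_mod, hs3]

lemma pi_count (N : ℕ) (S : Finset ℕ) (g : ℕ → ℕ) (hg : Set.InjOn g S)
    (h : ∀ x ∈ S, (g x).Prime ∧ g x ≤ N) : S.card ≤ Nat.primeCounting N := by
  rw [← Finset.card_image_of_injOn hg, Nat.primeCounting, Nat.primeCounting',
    Nat.count_eq_card_filter_range]
  apply Finset.card_le_card
  intro y hy
  rw [Finset.mem_image] at hy
  obtain ⟨x, hx, rfl⟩ := hy
  rw [Finset.mem_filter, Finset.mem_range]
  exact ⟨Nat.lt_succ_of_le (h x hx).2, (h x hx).1⟩

open Classical in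
lemma bad_count (n : ℕ) : ((Finset.range (n + 1)).filter
    (fun x => x ≤ 5 ∨ x.Prime ∨ (2 * x + 3).Prime ∨ (2 * x - 3).Prime)).card
      ≤ 3 * Nat.primeCounting (2 * n + 3) + 6 := by
  have h1 : ((Finset.range (n + 1)).filter (fun x => x.Prime)).card
      ≤ Nat.primeCounting (2 * n + 3) := by
    apply pi_count _ _ (fun x => x) (fun a _ b _ h => h)
    intro x hx
    rw [Finset.mem_filter, Finset.mem_range] at hx
    exact ⟨hx.2, by omega⟩
  have h2 : ((Finset.range (n + 1)).filter (fun x => (2 * x + 3).Prime)).card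
      ≤ Nat.primeCounting (2 * n + 3) := by
    apply pi_count _ _ (fun x => 2 * x + 3)
    · intro a _ b _ h
      simp only at h
      omega
    · intro x hx
      rw [Finset.mem_filter, Finset.mem_range] at hx
      exact ⟨hx.2, by omega⟩
  have h3 : ((Finset.range (n + 1)).filter (fun x => (2 * x - 3).Prime)).card
      ≤ Nat.primeCounting (2 * n + 3) := by
    apply pi_count _ _ (fun x => 2 * x - 3)
    · intro a ha b hb h
      rw [Finset.mem_coe, Finset.mem_filter] at ha hb
      have := ha.2.two_le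
      have := hb.2.two_le
      simp only at h
      omega
    · intro x hx
      rw [Finset.mem_filter, Finset.mem_range] at hx
      exact ⟨hx.2, by omega⟩
  have h4 : ((Finset.range (n + 1)).filter (fun x => x ≤ 5)).card ≤ 6 := by
    calc _ ≤ (Finset.range 6).card := by
          apply Finset.card_le_card
          intro x hx
          rw [Finset.mem_filter] at hx
          rw [Finset.mem_range]
          omega
      _ = 6 := Finset.card_range _
  have h5 : (Finset.range (n + 1)).filter
      (fun x => x ≤ 5 ∨ x.Prime ∨ (2 * x + 3).Prime ∨ (2 * x - 3).Prime) ⊆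
      ((Finset.range (n + 1)).filter (fun x => x ≤ 5) ∪
        (Finset.range (n + 1)).filter (fun x => x.Prime)) ∪
      ((Finset.range (n + 1)).filter (fun x => (2 * x + 3).Prime) ∪
        (Finset.range (n + 1)).filter (fun x => (2 * x - 3).Prime)) := by
    intro x hx
    simp only [Finset.mem_union, Finset.mem_filter] at hx ⊢
    tauto
  have h6 := Finset.card_le_card h5
  have h7 := Finset.card_union_le ((Finset.range (n + 1)).filter (fun x => x ≤ 5) ∪
        (Finset.range (n + 1)).filter (fun x => x.Prime))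
      ((Finset.range (n + 1)).filter (fun x => (2 * x + 3).Prime) ∪
        (Finset.range (n + 1)).filter (fun x => (2 * x - 3).Prime))
  have h8 := Finset.card_union_le ((Finset.range (n + 1)).filter (fun x => x ≤ 5))
        ((Finset.range (n + 1)).filter (fun x => x.Prime))
  have h9 := Finset.card_union_le ((Finset.range (n + 1)).filter (fun x => (2 * x + 3).Prime))
        ((Finset.range (n + 1)).filter (fun x => (2 * x - 3).Prime))
  omega

open Classical in
lemma good_count (n b : ℕ) (hb : b < 2) : 2 * (n / 6) ≤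
    ((Finset.Icc 1 n).filter (fun x => Good x ∧ x % 2 = b)).card +
      (3 * Nat.primeCounting (2 * n + 3) + 6) := by
  obtain ⟨r, s, hr, hs, hrs, h1, h2⟩ : ∃ r s : ℕ, r < 6 ∧ s < 6 ∧ r ≠ s ∧
      (∀ x, x % 6 = r → x % 3 ≠ 0 ∧ x % 2 = b) ∧ (∀ x, x % 6 = s → x % 3 ≠ 0 ∧ x % 2 = b) := by
    rcases (by omega : b = 0 ∨ b = 1) with rfl | rfl
    · exact ⟨2, 4, by omega, by omega, by omega, fun x h => by omega, fun x h => by omega⟩
    · exact ⟨1, 5, by omega, by omega, by omega, fun x h => by omega, fun x h => by omega⟩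
  have h3 := res_count n 6 r hr
  have h4 := res_count n 6 s hs
  have h5 : Disjoint ((Finset.Icc 1 n).filter (fun x => x % 6 = r))
      ((Finset.Icc 1 n).filter (fun x => x % 6 = s)) := by
    rw [Finset.disjoint_left]
    intro x hx hx'
    rw [Finset.mem_filter] at hx hx'
    exact hrs (hx.2.symm.trans hx'.2)
  have h6 : (Finset.Icc 1 n).filter (fun x => x % 6 = r) ∪
      (Finset.Icc 1 n).filter (fun x => x % 6 = s) ⊆
      (Finset.Icc 1 n).filter (fun x => Good x ∧ x % 2 = b) ∪ (Finset.range (n + 1)).filter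
        (fun x => x ≤ 5 ∨ x.Prime ∨ (2 * x + 3).Prime ∨ (2 * x - 3).Prime) := by
    intro x hx
    rw [Finset.mem_union, Finset.mem_filter, Finset.mem_filter, Finset.mem_Icc] at hx
    rw [Finset.mem_union, Finset.mem_filter, Finset.mem_filter, Finset.mem_Icc, Finset.mem_range]
    by_cases hB : x ≤ 5 ∨ x.Prime ∨ (2 * x + 3).Prime ∨ (2 * x - 3).Prime
    · right
      rcases hx with hx | hx
      · exact ⟨by omega, hB⟩
      · exact ⟨by omega, hB⟩
    · left
      push Not at hB
      rcases hx with hx | hx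
      · exact ⟨hx.1, ⟨(h1 x hx.2).1, hB.1, hB.2.1, hB.2.2.1, hB.2.2.2⟩, (h1 x hx.2).2⟩
      · exact ⟨hx.1, ⟨(h2 x hx.2).1, hB.1, hB.2.1, hB.2.2.1, hB.2.2.2⟩, (h2 x hx.2).2⟩
  have h7 := Finset.card_le_card h6
  rw [Finset.card_union_of_disjoint h5] at h7
  have h8 := Finset.card_union_le ((Finset.Icc 1 n).filter (fun x => Good x ∧ x % 2 = b))
    ((Finset.range (n + 1)).filter
        (fun x => x ≤ 5 ∨ x.Prime ∨ (2 * x + 3).Prime ∨ (2 * x - 3).Prime))
  have h9 := bad_count n
  omega

/-- disjoint subsets -/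
lemma sum_le {α : Type} [Finite α] : ∀ (l : List (Set α)) (C : Set α), (∀ A ∈ l, A ⊆ C) →
    l.Pairwise (fun A B => ∀ p ∈ A, p ∉ B) → (l.map Set.ncard).sum ≤ C.ncard
  | [], C, _, _ => by simp
  | A :: l, C, h1, h2 => by
    rw [List.pairwise_cons] at h2
    have h3 := sum_le l (C \ A) (fun B hB p hp => ⟨h1 B (List.mem_cons_of_mem _ hB) hp,
      fun hpA => h2.1 B hB p hpA hp⟩) h2.2
    have h4 := Set.ncard_sdiff_add_ncard_of_subset (h1 A List.mem_cons_self) (Set.toFinite _)
    rw [List.map_cons, List.sum_cons]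
    omega

end Pool.Agent.H480.GG
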