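import Pool.Agent.H480.GG.Main

set_option autoImplicit false

/-! The pairs of multiples of three with no path of length three modulo five
(this refinement is due to helper71). -/

namespace Pool.Agent.H480.GG

/-- multiples of six (`b = 0`) or odd multiples of three (`b = 1`), congruent to `± 2` modulo `5`,
without some exceptions -/
def F (b x : ℕ) : Prop := x % 6 = 3 * b ∧ 5 < x ∧ (x % 5 = 2 ∨ x % 5 = 3) ∧
  ¬ (2 * x + 5).Prime ∧ ¬ (2 * x - 5).Prime ∧ ¬ (x + 1).Prime

lemma P_five {m : ℕ} (h : P m) (h5 : m % 5 = 0) : m = 5 := by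
  rcases h with rfl | h
  · omega
  · exact ((Nat.prime_dvd_prime_iff_eq Nat.prime_five h.1).mp (Nat.dvd_of_mod_eq_zero h5)).symm

/-- the middle edge `{c, c + 3}` of a path `x, c, c + 3, y` -/
lemma no_mid {bx b2 x y c : ℕ} (hx : F bx x) (hy : F b2 y) (h1 : P (x + c)) (h2 : P (Nat.dist x c))
    (h3 : P (2 * c + 3)) (h4 : P (c + 3 + y)) (h5 : P (Nat.dist (c + 3) y)) : False := by
  obtain ⟨a1, a2, a3, a4, a5, a6⟩ := hx
  obtain ⟨b1, b2', b3, b4, b5, b6⟩ := hy
  have n1 : (x + c) % 5 ≠ 0 := by
    intro h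
    have := P_five h1 h
    omega
  have n2 : (Nat.dist x c) % 5 ≠ 0 := by
    intro h
    have e := P_five h2 h
    unfold Nat.dist at e
    rcases le_total x c with hc | hc
    · have hc' : c = x + 5 := by omega
      apply a4
      have : 2 * x + 5 = x + c := by omega
      rw [this]
      exact P_prime h1 (by omega)
    · have hc' : x = c + 5 := by omega
      apply a5
      have : 2 * x - 5 = x + c := by omega
      rw [this]
      exact P_prime h1 (by omega)
  have n3 : (2 * c + 3) % 5 ≠ 0 := by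
    intro h
    have e := P_five h3 h
    have hc : c = 1 := by omega
    apply a6
    rw [hc] at h1
    exact P_prime h1 (by omega)
  have n4 : (c + 3 + y) % 5 ≠ 0 := by
    intro h
    have := P_five h4 h
    omega
  have n5 : (Nat.dist (c + 3) y) % 5 ≠ 0 := by
    intro h
    have e := P_five h5 h
    unfold Nat.dist at e
    rcases le_total y (c + 3) with hc | hc
    · have hc' : c + 3 = y + 5 := by omega
      apply b4
      have : 2 * y + 5 = c + 3 + y := by omega
      rw [this]
      exact P_prime h4 (by omega)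
    · have hc' : y = c + 3 + 5 := by omega
      apply b5
      have : 2 * y - 5 = c + 3 + y := by omega
      rw [this]
      exact P_prime h4 (by omega)
  have n2' : x % 5 ≠ c % 5 := by
    intro h
    apply n2
    rcases le_total x c with hc | hc
    · rw [Nat.dist_eq_sub_of_le hc]; omega
    · rw [Nat.dist_eq_sub_of_le_right hc]; omega
  have n5' : (c + 3) % 5 ≠ y % 5 := by
    intro h
    apply n5
    rcases le_total (c + 3) y with hc | hc
    · rw [Nat.dist_eq_sub_of_le hc]; omega
    · rw [Nat.dist_eq_sub_of_le_right hc]; omega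
  have hc5 : c % 5 = 0 ∨ c % 5 = 1 ∨ c % 5 = 2 ∨ c % 5 = 3 ∨ c % 5 = 4 := by omega
  rcases a3 with a3 | a3 <;> rcases b3 with b3 | b3 <;>
    rcases hc5 with hc5 | hc5 | hc5 | hc5 | hc5 <;> omega

section
variable {V : Type} {G : SimpleGraph V} {f : V → ℕ} {n : ℕ}

lemma dist5F (M : Model G f n) {u v : V} {b1 b2 : ℕ} (hu : F b1 (f u)) (hv : F b2 (f v))
    (hp : (f u + f v) % 2 = 1) : 5 ≤ G.edist u v := by
  have hu3 : f u % 3 = 0 := by have := hu.1; omega
  have hv3 : f v % 3 = 0 := by have := hv.1; omega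
  have hu5 := hu.2.1
  have hv5 := hv.2.1
  by_contra hcon
  push Not at hcon
  obtain ⟨w, hw⟩ := SimpleGraph.exists_walk_of_edist_ne_top (ne_top_of_lt hcon)
  rw [← hw] at hcon
  have hlen : w.length < 5 := by exact_mod_cast hcon
  clear hw hcon
  cases w with
  | nil => omega
  | @cons _ x _ e1 w =>
    have p1 := M.par e1
    cases w with
    | nil =>
      have := (edge (M.adj _ _ e1).1 (M.adj _ _ e1).2).2.2 hu3 hv3
      omega
    | @cons _ y _ e2 w =>
      have p2 := M.par e2
      cases w with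
      | nil => omega
      | @cons _ z _ e3 w =>
        have p3 := M.par e3
        cases w with
        | nil =>
          have hx : f x % 3 ≠ 0 := by
            intro h
            have := (edge (M.adj _ _ e1).1 (M.adj _ _ e1).2).2.2 hu3 h
            omega
          have hy : f y % 3 ≠ 0 := by
            intro h
            have := (edge (M.adj _ _ e3).1 (M.adj _ _ e3).2).2.2 h hv3
            omega
          rcases (edge (M.adj _ _ e2).1 (M.adj _ _ e2).2).2.1 hx hy with ⟨g1, g2⟩ | ⟨g1, g2⟩ | g
          · have h4 := (M.adj _ _ e3).1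
            have h5 := (M.adj _ _ e3).2
            rw [g1] at h4 h5
            exact no_mid hu hv (M.adj _ _ e1).1 (M.adj _ _ e1).2 g2 h4 h5
          · have h4 := (M.symm e1).1
            have h5 := (M.symm e1).2
            rw [g1] at h4 h5
            exact no_mid hv hu (M.symm e3).1 (M.symm e3).2 g2 h4 h5
          · have q1 := (M.adj _ _ e1).1
            have q2 := (M.symm e3).1
            have hx0 : f x ≠ 0 := by intro h; rw [h] at hx; exact hx rfl
            have hy0 : f y ≠ 0 := by intro h; rw [h] at hy; exact hy rfl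
            have hcase : f x = 1 ∨ f y = 1 := by omega
            rcases hcase with h | h
            · rw [h] at q1
              exact hu.2.2.2.2.2 (P_prime q1 (by omega))
            · rw [h] at q2
              exact hv.2.2.2.2.2 (P_prime q2 (by omega))
        | @cons _ t _ e4 w =>
          have p4 := M.par e4
          cases w with
          | nil => omega
          | cons e5 w =>
            simp only [SimpleGraph.Walk.length_cons] at hlen
            omega

open Classical in
lemma badF_count (n : ℕ) : ((Finset.range (n + 1)).filter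
    (fun x => x ≤ 5 ∨ (x + 1).Prime ∨ (2 * x + 5).Prime ∨ (2 * x - 5).Prime)).card
      ≤ 3 * Nat.primeCounting (2 * n + 3) + 7 := by
  have h1 : ((Finset.range (n + 1)).filter (fun x => (x + 1).Prime)).card
      ≤ Nat.primeCounting (2 * n + 3) := by
    apply pi_count _ _ (fun x => x + 1) (fun a _ b _ h => by simp only at h; omega)
    intro x hx
    rw [Finset.mem_filter, Finset.mem_range] at hx
    exact ⟨hx.2, by omega⟩
  have h2 : ((Finset.range n).filter (fun x => (2 * x + 5).Prime)).card
      ≤ Nat.primeCounting (2 * n + 3) := by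
    apply pi_count _ _ (fun x => 2 * x + 5)
    · intro a _ b _ h
      simp only at h
      omega
    · intro x hx
      rw [Finset.mem_filter, Finset.mem_range] at hx
      exact ⟨hx.2, by omega⟩
  have h3 : ((Finset.range (n + 1)).filter (fun x => (2 * x - 5).Prime)).card
      ≤ Nat.primeCounting (2 * n + 3) := by
    apply pi_count _ _ (fun x => 2 * x - 5)
    · intro a ha b hb h
      rw [Finset.mem_coe, Finset.mem_filter] at ha hb
      have := ha.2.two_le
      have := hb.2.two_le
      simp only at h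
      omega
    · intro x hx
      rw [Finset.mem_filter, Finset.mem_range] at hx
      exact ⟨hx.2, by omega⟩
  have h4 : (Finset.range 6 ∪ {n}).card ≤ 7 := by
    calc _ ≤ (Finset.range 6).card + ({n} : Finset ℕ).card := Finset.card_union_le _ _
      _ = 7 := by rw [Finset.card_range, Finset.card_singleton]
  have h5 : (Finset.range (n + 1)).filter
      (fun x => x ≤ 5 ∨ (x + 1).Prime ∨ (2 * x + 5).Prime ∨ (2 * x - 5).Prime) ⊆
      ((Finset.range 6 ∪ {n}) ∪
        (Finset.range (n + 1)).filter (fun x => (x + 1).Prime)) ∪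
      ((Finset.range n).filter (fun x => (2 * x + 5).Prime) ∪
        (Finset.range (n + 1)).filter (fun x => (2 * x - 5).Prime)) := by
    intro x hx
    simp only [Finset.mem_union, Finset.mem_filter, Finset.mem_range,
      Finset.mem_singleton] at hx ⊢
    obtain ⟨hx1, hx2⟩ := hx
    rcases hx2 with h | h | h | h
    · left; left; left; omega
    · left; right; exact ⟨hx1, h⟩
    · by_cases hn : x = n
      · left; left; right; exact hn
      · right; left; exact ⟨by omega, h⟩
    · right; right; exact ⟨hx1, h⟩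
  have h6 := Finset.card_le_card h5
  have h7 := Finset.card_union_le ((Finset.range 6 ∪ {n}) ∪
        (Finset.range (n + 1)).filter (fun x => (x + 1).Prime))
      ((Finset.range n).filter (fun x => (2 * x + 5).Prime) ∪
        (Finset.range (n + 1)).filter (fun x => (2 * x - 5).Prime))
  have h8 := Finset.card_union_le (Finset.range 6 ∪ {n})
        ((Finset.range (n + 1)).filter (fun x => (x + 1).Prime))
  have h9 := Finset.card_union_le ((Finset.range n).filter (fun x => (2 * x + 5).Prime))
        ((Finset.range (n + 1)).filter (fun x => (2 * x - 5).Prime))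
  omega

lemma fcount (M : Model G f n) (b : ℕ) (hb : b < 2) :
    2 * (n / 30) ≤ {v | F b (f v)}.ncard + (3 * Nat.primeCounting (2 * n + 3) + 7) := by
  classical
  have h0 := count_ge M (fun x => F b x)
  obtain ⟨r, s, hr, hs, hrs, h1, h2⟩ : ∃ r s : ℕ, r < 30 ∧ s < 30 ∧ r ≠ s ∧
      (∀ x, x % 30 = r → x % 6 = 3 * b ∧ (x % 5 = 2 ∨ x % 5 = 3)) ∧
      (∀ x, x % 30 = s → x % 6 = 3 * b ∧ (x % 5 = 2 ∨ x % 5 = 3)) := by
    rcases (by omega : b = 0 ∨ b = 1) with rfl | rfl
    · exact ⟨12, 18, by omega, by omega, by omega, fun x h => by omega, fun x h => by omega⟩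
    · exact ⟨3, 27, by omega, by omega, by omega, fun x h => by omega, fun x h => by omega⟩
  have h3 := res_count n 30 r hr
  have h4 := res_count n 30 s hs
  have h5 : Disjoint ((Finset.Icc 1 n).filter (fun x => x % 30 = r))
      ((Finset.Icc 1 n).filter (fun x => x % 30 = s)) := by
    rw [Finset.disjoint_left]
    intro x hx hx'
    rw [Finset.mem_filter] at hx hx'
    exact hrs (hx.2.symm.trans hx'.2)
  have h6 : (Finset.Icc 1 n).filter (fun x => x % 30 = r) ∪
      (Finset.Icc 1 n).filter (fun x => x % 30 = s) ⊆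
      (Finset.Icc 1 n).filter (fun x => F b x) ∪ (Finset.range (n + 1)).filter
        (fun x => x ≤ 5 ∨ (x + 1).Prime ∨ (2 * x + 5).Prime ∨ (2 * x - 5).Prime) := by
    intro x hx
    rw [Finset.mem_union, Finset.mem_filter, Finset.mem_filter, Finset.mem_Icc] at hx
    rw [Finset.mem_union, Finset.mem_filter, Finset.mem_filter, Finset.mem_Icc, Finset.mem_range]
    by_cases hB : x ≤ 5 ∨ (x + 1).Prime ∨ (2 * x + 5).Prime ∨ (2 * x - 5).Prime
    · right
      rcases hx with hx | hx
      · exact ⟨by omega, hB⟩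
      · exact ⟨by omega, hB⟩
    · left
      push Not at hB
      rcases hx with hx | hx
      · exact ⟨hx.1, (h1 x hx.2).1, hB.1, (h1 x hx.2).2, hB.2.2.1, hB.2.2.2, hB.2.1⟩
      · exact ⟨hx.1, (h2 x hx.2).1, hB.1, (h2 x hx.2).2, hB.2.2.1, hB.2.2.2, hB.2.1⟩
  have h7 := Finset.card_le_card h6
  rw [Finset.card_union_of_disjoint h5] at h7
  have h8 := Finset.card_union_le ((Finset.Icc 1 n).filter (fun x => F b x))
    ((Finset.range (n + 1)).filter
        (fun x => x ≤ 5 ∨ (x + 1).Prime ∨ (2 * x + 5).Prime ∨ (2 * x - 5).Prime))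
  have h9 := badF_count n
  omega

lemma lower5F (M : Model G f n) :
    2 * ({v | Gd 0 (f v)}.ncard * {v | Gd 1 (f v)}.ncard) +
    2 * ({v | F 0 (f v)}.ncard * {v | F 1 (f v)}.ncard) ≤
      {p : V × V | 5 ≤ G.edist p.1 p.2}.ncard := by
  have := M.finite
  have h := sum_le [S f (Gd 0) (Gd 1), S f (Gd 1) (Gd 0), S f (F 0) (F 1), S f (F 1) (F 0)]
    {p : V × V | 5 ≤ G.edist p.1 p.2}
    (by
      intro A hA
      simp only [List.mem_cons, List.not_mem_nil, or_false] at hA
      rcases hA with rfl | rfl | rfl | rfl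
      · rintro ⟨u, v⟩ ⟨h1, h2⟩
        exact dist5 M h1.1 h2.1 (by have := h1.2; have := h2.2; simp only at *; omega)
      · rintro ⟨u, v⟩ ⟨h1, h2⟩
        exact dist5 M h1.1 h2.1 (by have := h1.2; have := h2.2; simp only at *; omega)
      · rintro ⟨u, v⟩ ⟨h1, h2⟩
        exact dist5F M h1 h2 (by have := h1.1; have := h2.1; simp only at *; omega)
      · rintro ⟨u, v⟩ ⟨h1, h2⟩
        exact dist5F M h1 h2 (by have := h1.1; have := h2.1; simp only at *; omega))
    (by
      simp only [List.pairwise_cons, List.mem_cons, List.not_mem_nil, or_false, forall_eq_or_imp,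
        forall_eq, List.Pairwise.nil, and_true, IsEmpty.forall_iff, implies_true]
      refine ⟨⟨?_, ?_, ?_⟩, ⟨?_, ?_⟩, ?_⟩ <;>
      · rintro ⟨u, v⟩ ⟨h1, h2⟩ ⟨h3, h4⟩
        simp only [Gd, Good, F] at h1 h2 h3 h4
        omega)
  simp only [List.map_cons, List.map_nil, List.sum_cons, List.sum_nil, S_ncard] at h
  have e : {v | Gd 1 (f v)}.ncard * {v | Gd 0 (f v)}.ncard =
    {v | Gd 0 (f v)}.ncard * {v | Gd 1 (f v)}.ncard := mul_comm _ _
  have e' : {v | F 1 (f v)}.ncard * {v | F 0 (f v)}.ncard =
    {v | F 0 (f v)}.ncard * {v | F 1 (f v)}.ncard := mul_comm _ _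
  omega

lemma lower4F (M : Model G f n) :
    2 * ({v | Gd 0 (f v)}.ncard * {v | Gd 1 (f v)}.ncard) +
    2 * ({v | F 0 (f v)}.ncard * {v | F 1 (f v)}.ncard) +
    2 * ({v | T 0 (f v)}.ncard * {v | Gd 0 (f v)}.ncard) +
    2 * ({v | T 1 (f v)}.ncard * {v | Gd 1 (f v)}.ncard) ≤
      {p : V × V | 4 ≤ G.edist p.1 p.2}.ncard := by
  have := M.finite
  have h := sum_le [{p : V × V | 5 ≤ G.edist p.1 p.2 ∧ (f p.1 + f p.2) % 2 = 1},
      S f (T 0) (Gd 0), S f (Gd 0) (T 0),
      S f (T 1) (Gd 1), S f (Gd 1) (T 1)] {p : V × V | 4 ≤ G.edist p.1 p.2}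
    (by
      intro A hA
      simp only [List.mem_cons, List.not_mem_nil, or_false] at hA
      rcases hA with rfl | rfl | rfl | rfl | rfl
      · rintro ⟨u, v⟩ ⟨h1, h2⟩
        exact four_le_of_five h1
      · rintro ⟨u, v⟩ ⟨h1, h2⟩
        exact dist4' M h1 h2 (by norm_num)
      · rintro ⟨u, v⟩ ⟨h1, h2⟩
        have := dist4' M h2 h1 (by norm_num)
        rw [SimpleGraph.edist_comm] at this
        exact this
      · rintro ⟨u, v⟩ ⟨h1, h2⟩
        exact dist4' M h1 h2 (by norm_num)
      · rintro ⟨u, v⟩ ⟨h1, h2⟩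
        have := dist4' M h2 h1 (by norm_num)
        rw [SimpleGraph.edist_comm] at this
        exact this)
    (by
      simp only [List.pairwise_cons, List.mem_cons, List.not_mem_nil, or_false, forall_eq_or_imp,
        forall_eq, List.Pairwise.nil, and_true, IsEmpty.forall_iff, implies_true]
      refine ⟨⟨?_, ?_, ?_, ?_⟩, ⟨?_, ?_, ?_⟩, ⟨?_, ?_⟩, ?_⟩ <;>
      · rintro ⟨u, v⟩ ⟨h1, h2⟩ ⟨h3, h4⟩
        simp only [T, Gd, Good] at h1 h2 h3 h4
        omega)
  have h5 : 2 * ({v | Gd 0 (f v)}.ncard * {v | Gd 1 (f v)}.ncard) +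
    2 * ({v | F 0 (f v)}.ncard * {v | F 1 (f v)}.ncard) ≤
      {p : V × V | 5 ≤ G.edist p.1 p.2 ∧ (f p.1 + f p.2) % 2 = 1}.ncard := by
    have h := sum_le [S f (Gd 0) (Gd 1), S f (Gd 1) (Gd 0), S f (F 0) (F 1), S f (F 1) (F 0)]
      {p : V × V | 5 ≤ G.edist p.1 p.2 ∧ (f p.1 + f p.2) % 2 = 1}
      (by
        intro A hA
        simp only [List.mem_cons, List.not_mem_nil, or_false] at hA
        rcases hA with rfl | rfl | rfl | rfl
        · rintro ⟨u, v⟩ ⟨h1, h2⟩
          have e : (f u + f v) % 2 = 1 := by have := h1.2; have := h2.2; simp only at *; omega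
          exact ⟨dist5 M h1.1 h2.1 e, e⟩
        · rintro ⟨u, v⟩ ⟨h1, h2⟩
          have e : (f u + f v) % 2 = 1 := by have := h1.2; have := h2.2; simp only at *; omega
          exact ⟨dist5 M h1.1 h2.1 e, e⟩
        · rintro ⟨u, v⟩ ⟨h1, h2⟩
          have e : (f u + f v) % 2 = 1 := by have := h1.1; have := h2.1; simp only at *; omega
          exact ⟨dist5F M h1 h2 e, e⟩
        · rintro ⟨u, v⟩ ⟨h1, h2⟩
          have e : (f u + f v) % 2 = 1 := by have := h1.1; have := h2.1; simp only at *; omega
          exact ⟨dist5F M h1 h2 e, e⟩)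
      (by
        simp only [List.pairwise_cons, List.mem_cons, List.not_mem_nil, or_false,
          forall_eq_or_imp, forall_eq, List.Pairwise.nil, and_true, IsEmpty.forall_iff,
          implies_true]
        refine ⟨⟨?_, ?_, ?_⟩, ⟨?_, ?_⟩, ?_⟩ <;>
        · rintro ⟨u, v⟩ ⟨h1, h2⟩ ⟨h3, h4⟩
          simp only [Gd, Good, F] at h1 h2 h3 h4
          omega)
    simp only [List.map_cons, List.map_nil, List.sum_cons, List.sum_nil, S_ncard] at h
    have e : {v | Gd 1 (f v)}.ncard * {v | Gd 0 (f v)}.ncard =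
      {v | Gd 0 (f v)}.ncard * {v | Gd 1 (f v)}.ncard := mul_comm _ _
    have e' : {v | F 1 (f v)}.ncard * {v | F 0 (f v)}.ncard =
      {v | F 0 (f v)}.ncard * {v | F 1 (f v)}.ncard := mul_comm _ _
    omega
  simp only [List.map_cons, List.map_nil, List.sum_cons, List.sum_nil, S_ncard] at h
  have e' : {v | Gd 0 (f v)}.ncard * {v | T 0 (f v)}.ncard =
    {v | T 0 (f v)}.ncard * {v | Gd 0 (f v)}.ncard := mul_comm _ _
  have e'' : {v | Gd 1 (f v)}.ncard * {v | T 1 (f v)}.ncard =
    {v | T 1 (f v)}.ncard * {v | Gd 1 (f v)}.ncard := mul_comm _ _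
  omega

end

end Pool.Agent.H480.GG
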