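import Pool.Agent.H480.GG.Core

set_option autoImplicit false

/-! The bottleneck and the number of pairs at a given distance in the finite Goldbach graphs. -/

namespace Pool.Agent.H480.GG

open Filter

section
variable {V : Type} {G : SimpleGraph V} {f : V → ℕ} {n : ℕ}

lemma inj_le {α : Type} [Finite α] (A : Set α) (g : α → ℕ) (S : Finset ℕ) (hg : Set.InjOn g A)
    (h : ∀ a ∈ A, g a ∈ S) : A.ncard ≤ S.card := by
  rw [← hg.ncard_image, ← Set.ncard_coe_finset]
  apply Set.ncard_le_ncard _ (Set.toFinite _)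
  rintro _ ⟨a, ha, rfl⟩
  exact h a ha

/-- primes up to `2 n + 3` -/
def PS (n : ℕ) : Finset ℕ := (Finset.range (2 * n + 3 + 1)).filter Nat.Prime

lemma PS_card (n : ℕ) : (PS n).card = Nat.primeCounting (2 * n + 3) := by
  rw [Nat.primeCounting, Nat.primeCounting', Nat.count_eq_card_filter_range, PS]

lemma mem_PS {n m : ℕ} : m ∈ PS n ↔ m ≤ 2 * n + 3 ∧ m.Prime := by
  rw [PS, Finset.mem_filter, Finset.mem_range, Nat.lt_succ_iff]

lemma tcount (M : Model G f n) (b : ℕ) (hb : b < 2) :
    n / 6 ≤ {v | f v % 6 = 3 * b ∧ f v ≠ 0}.ncard := by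
  classical
  refine (res_count n 6 (3 * b) (by omega)).trans (le_trans (Finset.card_le_card ?_)
    (count_ge M (fun x => x % 6 = 3 * b ∧ x ≠ 0)))
  intro x hx
  rw [Finset.mem_filter, Finset.mem_Icc] at hx ⊢
  exact ⟨hx.1, hx.2, by omega⟩

lemma gcount (M : Model G f n) (b : ℕ) (hb : b < 2) :
    2 * (n / 6) ≤ {v | Good (f v) ∧ f v % 2 = b}.ncard +
      (3 * Nat.primeCounting (2 * n + 3) + 6) := by
  classical
  have h1 := good_count n b hb
  have h2 := count_ge M (fun x => Good x ∧ x % 2 = b)
  omega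

lemma rcount (M : Model G f n) (q r : ℕ) (hr : r < q) :
    n / q ≤ {v | f v % q = r}.ncard := by
  classical
  exact (res_count n q r hr).trans (count_ge M (fun x => x % q = r))

/-- pairs -/
def S (f : V → ℕ) (Q R : ℕ → Prop) : Set (V × V) := {p | Q (f p.1) ∧ R (f p.2)}

lemma S_ncard (f : V → ℕ) (Q R : ℕ → Prop) :
    (S f Q R).ncard = {v | Q (f v)}.ncard * {v | R (f v)}.ncard := by
  have : S f Q R = {v | Q (f v)} ×ˢ {v | R (f v)} := rfl
  rw [this, Set.ncard_prod]

lemma adj_count (M : Model G f n) :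
    {p : V × V | G.Adj p.1 p.2}.ncard ≤ (n + 1) * (Nat.primeCounting (2 * n + 3) + 1) := by
  have := M.finite
  have h1 : Set.InjOn (fun p : V × V => (f p.1, f p.1 + f p.2)) {p : V × V | G.Adj p.1 p.2} := by
    rintro ⟨a, b⟩ - ⟨c, d⟩ - h
    simp only [Prod.mk.injEq] at h
    have e1 := M.inj h.1
    have e2 : f b = f d := by omega
    rw [e1, M.inj e2]
  rw [← h1.ncard_image]
  calc _ ≤ (((Finset.range (n + 1) ×ˢ insert 1 (PS n) : Finset (ℕ × ℕ)) : Set (ℕ × ℕ))).ncard := by
        apply Set.ncard_le_ncard _ (Set.toFinite _)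
        rintro _ ⟨⟨a, b⟩, hab, rfl⟩
        rw [Finset.mem_coe, Finset.mem_product, Finset.mem_range, Finset.mem_insert, mem_PS]
        have h2 := M.le a
        have h3 := M.le b
        refine ⟨by simp only; omega, ?_⟩
        rcases (M.adj a b hab).1 with h4 | h4
        · exact Or.inl h4
        · exact Or.inr ⟨by simp only; omega, h4.1⟩
    _ ≤ _ := by
        rw [Set.ncard_coe_finset, Finset.card_product, Finset.card_range]
        apply Nat.mul_le_mul_left
        have := Finset.card_insert_le 1 (PS n)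
        rw [PS_card] at this
        exact this

/-- abbreviations for the classes of vertices -/
def T (b x : ℕ) : Prop := x % 6 = 3 * b ∧ x ≠ 0
def Gd (b x : ℕ) : Prop := Good x ∧ x % 2 = b
def Pr (b x : ℕ) : Prop := x % 2 = b

lemma lower5 (M : Model G f n) :
    2 * ({v | Gd 0 (f v)}.ncard * {v | Gd 1 (f v)}.ncard) ≤
      {p : V × V | 5 ≤ G.edist p.1 p.2}.ncard := by
  have := M.finite
  have h := sum_le [S f (Gd 0) (Gd 1), S f (Gd 1) (Gd 0)] {p : V × V | 5 ≤ G.edist p.1 p.2}
    (by
      intro A hA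
      simp only [List.mem_cons, List.not_mem_nil, or_false] at hA
      rcases hA with rfl | rfl
      · rintro ⟨u, v⟩ ⟨h1, h2⟩
        exact dist5 M h1.1 h2.1 (by have := h1.2; have := h2.2; simp only at *; omega)
      · rintro ⟨u, v⟩ ⟨h1, h2⟩
        exact dist5 M h1.1 h2.1 (by have := h1.2; have := h2.2; simp only at *; omega))
    (by
      simp only [List.pairwise_cons, List.mem_cons, List.not_mem_nil, or_false, forall_eq,
        List.Pairwise.nil, and_true, IsEmpty.forall_iff, implies_true]
      rintro ⟨u, v⟩ ⟨h1, h2⟩ ⟨h3, h4⟩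
      have := h1.2
      have := h3.2
      omega)
  simp only [List.map_cons, List.map_nil, List.sum_cons, List.sum_nil, S_ncard] at h
  have e : {v | Gd 1 (f v)}.ncard * {v | Gd 0 (f v)}.ncard =
    {v | Gd 0 (f v)}.ncard * {v | Gd 1 (f v)}.ncard := mul_comm _ _
  omega

lemma four_le_of_five {u v : V} (h : 5 ≤ G.edist u v) : 4 ≤ G.edist u v :=
  le_trans (by norm_num) h

lemma three_le_of_four {u v : V} (h : 4 ≤ G.edist u v) : 3 ≤ G.edist u v :=
  le_trans (by norm_num) h

lemma dist4' (M : Model G f n) {b : ℕ} {u v : V} (h1 : T b (f u)) (h2 : Gd b (f v)) (hb : b < 2) :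
    4 ≤ G.edist u v := by
  obtain ⟨a1, a2⟩ := h1
  obtain ⟨b1, b2⟩ := h2
  have hb' : b = 0 ∨ b = 1 := by omega
  rcases hb' with rfl | rfl <;> exact dist4 M (by omega) a2 b1 (by omega)

lemma lower4 (M : Model G f n) :
    2 * ({v | Gd 0 (f v)}.ncard * {v | Gd 1 (f v)}.ncard) +
    2 * ({v | T 0 (f v)}.ncard * {v | Gd 0 (f v)}.ncard) +
    2 * ({v | T 1 (f v)}.ncard * {v | Gd 1 (f v)}.ncard) ≤
      {p : V × V | 4 ≤ G.edist p.1 p.2}.ncard := by
  have := M.finite
  have h := sum_le [S f (Gd 0) (Gd 1), S f (Gd 1) (Gd 0), S f (T 0) (Gd 0), S f (Gd 0) (T 0),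
      S f (T 1) (Gd 1), S f (Gd 1) (T 1)] {p : V × V | 4 ≤ G.edist p.1 p.2}
    (by
      intro A hA
      simp only [List.mem_cons, List.not_mem_nil, or_false] at hA
      rcases hA with rfl | rfl | rfl | rfl | rfl | rfl
      · rintro ⟨u, v⟩ ⟨h1, h2⟩
        exact four_le_of_five
          (dist5 M h1.1 h2.1 (by have := h1.2; have := h2.2; simp only at *; omega))
      · rintro ⟨u, v⟩ ⟨h1, h2⟩
        exact four_le_of_five
          (dist5 M h1.1 h2.1 (by have := h1.2; have := h2.2; simp only at *; omega))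
      · rintro ⟨u, v⟩ ⟨h1, h2⟩
        exact dist4' M h1 h2 (by norm_num)
      · rintro ⟨u, v⟩ ⟨h1, h2⟩
        have := dist4' M h2 h1 (by norm_num)
        rw [SimpleGraph.edist_comm] at this
        exact this
      · rintro ⟨u, v⟩ ⟨h1, h2⟩
        exact dist4' M h1 h2 (by norm_num)
      · rintro ⟨u, v⟩ ⟨h1, h2⟩
        have := dist4' M h2 h1 (by norm_num)
        rw [SimpleGraph.edist_comm] at this
        exact this)
    (by
      simp only [List.pairwise_cons, List.mem_cons, List.not_mem_nil, or_false, forall_eq_or_imp,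
        forall_eq, List.Pairwise.nil, and_true, IsEmpty.forall_iff, implies_true]
      refine ⟨⟨?_, ?_, ?_, ?_, ?_⟩, ⟨?_, ?_, ?_, ?_⟩, ⟨?_, ?_, ?_⟩, ⟨?_, ?_⟩, ?_⟩ <;>
      · rintro ⟨u, v⟩ ⟨h1, h2⟩ ⟨h3, h4⟩
        simp only [T, Gd, Good] at h1 h2 h3 h4
        omega)
  simp only [List.map_cons, List.map_nil, List.sum_cons, List.sum_nil, S_ncard] at h
  have e : {v | Gd 1 (f v)}.ncard * {v | Gd 0 (f v)}.ncard =
    {v | Gd 0 (f v)}.ncard * {v | Gd 1 (f v)}.ncard := mul_comm _ _
  have e' : {v | Gd 0 (f v)}.ncard * {v | T 0 (f v)}.ncard =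
    {v | T 0 (f v)}.ncard * {v | Gd 0 (f v)}.ncard := mul_comm _ _
  have e'' : {v | Gd 1 (f v)}.ncard * {v | T 1 (f v)}.ncard =
    {v | T 1 (f v)}.ncard * {v | Gd 1 (f v)}.ncard := mul_comm _ _
  omega

lemma lower3 (M : Model G f n) :
    2 * ({v | Pr 0 (f v)}.ncard * {v | Pr 1 (f v)}.ncard) +
    2 * ({v | T 0 (f v)}.ncard * {v | Gd 0 (f v)}.ncard) +
    2 * ({v | T 1 (f v)}.ncard * {v | Gd 1 (f v)}.ncard) ≤
      {p : V × V | 3 ≤ G.edist p.1 p.2}.ncard +
        (n + 1) * (Nat.primeCounting (2 * n + 3) + 1) := by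
  have := M.finite
  have h := sum_le [S f (Pr 0) (Pr 1), S f (Pr 1) (Pr 0), S f (T 0) (Gd 0), S f (Gd 0) (T 0),
      S f (T 1) (Gd 1), S f (Gd 1) (T 1)]
      ({p : V × V | 3 ≤ G.edist p.1 p.2} ∪ {p : V × V | G.Adj p.1 p.2})
    (by
      intro A hA
      simp only [List.mem_cons, List.not_mem_nil, or_false] at hA
      rcases hA with rfl | rfl | rfl | rfl | rfl | rfl
      · rintro ⟨u, v⟩ ⟨h1, h2⟩
        by_cases ha : G.Adj u v
        · exact Or.inr ha
        · left
          simp only [Pr] at h1 h2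
          exact dist3 M (show (f u + f v) % 2 = 1 by omega) ha
      · rintro ⟨u, v⟩ ⟨h1, h2⟩
        by_cases ha : G.Adj u v
        · exact Or.inr ha
        · left
          simp only [Pr] at h1 h2
          exact dist3 M (show (f u + f v) % 2 = 1 by omega) ha
      · rintro ⟨u, v⟩ ⟨h1, h2⟩
        exact Or.inl (three_le_of_four (dist4' M h1 h2 (by norm_num)))
      · rintro ⟨u, v⟩ ⟨h1, h2⟩
        have := dist4' M h2 h1 (by norm_num)
        rw [SimpleGraph.edist_comm] at this
        exact Or.inl (three_le_of_four this)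
      · rintro ⟨u, v⟩ ⟨h1, h2⟩
        exact Or.inl (three_le_of_four (dist4' M h1 h2 (by norm_num)))
      · rintro ⟨u, v⟩ ⟨h1, h2⟩
        have := dist4' M h2 h1 (by norm_num)
        rw [SimpleGraph.edist_comm] at this
        exact Or.inl (three_le_of_four this))
    (by
      simp only [List.pairwise_cons, List.mem_cons, List.not_mem_nil, or_false, forall_eq_or_imp,
        forall_eq, List.Pairwise.nil, and_true, IsEmpty.forall_iff, implies_true]
      refine ⟨⟨?_, ?_, ?_, ?_, ?_⟩, ⟨?_, ?_, ?_, ?_⟩, ⟨?_, ?_, ?_⟩, ⟨?_, ?_⟩, ?_⟩ <;>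
      · rintro ⟨u, v⟩ ⟨h1, h2⟩ ⟨h3, h4⟩
        simp only [T, Gd, Good, Pr] at h1 h2 h3 h4
        omega)
  simp only [List.map_cons, List.map_nil, List.sum_cons, List.sum_nil, S_ncard] at h
  have e : {v | Pr 1 (f v)}.ncard * {v | Pr 0 (f v)}.ncard =
    {v | Pr 0 (f v)}.ncard * {v | Pr 1 (f v)}.ncard := mul_comm _ _
  have e' : {v | Gd 0 (f v)}.ncard * {v | T 0 (f v)}.ncard =
    {v | T 0 (f v)}.ncard * {v | Gd 0 (f v)}.ncard := mul_comm _ _
  have e'' : {v | Gd 1 (f v)}.ncard * {v | T 1 (f v)}.ncard =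
    {v | T 1 (f v)}.ncard * {v | Gd 1 (f v)}.ncard := mul_comm _ _
  have h1 := Set.ncard_union_le {p : V × V | 3 ≤ G.edist p.1 p.2} {p : V × V | G.Adj p.1 p.2}
  have h2 := adj_count M
  omega

lemma half_count (M : Model G f n) : 3 * (n / 6) ≤ {v | Half (f v)}.ncard ∧
    3 * (n / 6) ≤ {v | ¬ Half (f v)}.ncard := by
  have := M.finite
  constructor
  · have h := sum_le [{v | f v % 6 = 0}, {v | f v % 6 = 1}, {v | f v % 6 = 5}]
      {v | Half (f v)}
      (by
        intro A hA
        simp only [List.mem_cons, List.not_mem_nil, or_false] at hA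
        rcases hA with rfl | rfl | rfl <;>
        · intro v hv
          simp only [Set.mem_ofPred_eq, Half] at hv ⊢
          omega)
      (by
        simp only [List.pairwise_cons, List.mem_cons, List.not_mem_nil, or_false, forall_eq_or_imp,
          forall_eq, List.Pairwise.nil, and_true, IsEmpty.forall_iff, implies_true]
        refine ⟨⟨?_, ?_⟩, ?_⟩ <;>
        · intro v h1 h2
          simp only [Set.mem_ofPred_eq] at h1 h2
          omega)
    have h0 := rcount M 6 0 (by norm_num)
    have h1 := rcount M 6 1 (by norm_num)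
    have h2 := rcount M 6 5 (by norm_num)
    simp only [List.map_cons, List.map_nil, List.sum_cons, List.sum_nil] at h
    omega
  · have h := sum_le [{v | f v % 6 = 2}, {v | f v % 6 = 3}, {v | f v % 6 = 4}]
      {v | ¬ Half (f v)}
      (by
        intro A hA
        simp only [List.mem_cons, List.not_mem_nil, or_false] at hA
        rcases hA with rfl | rfl | rfl <;>
        · intro v hv
          simp only [Set.mem_ofPred_eq, Half] at hv ⊢
          omega)
      (by
        simp only [List.pairwise_cons, List.mem_cons, List.not_mem_nil, or_false, forall_eq_or_imp,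
          forall_eq, List.Pairwise.nil, and_true, IsEmpty.forall_iff, implies_true]
        refine ⟨⟨?_, ?_⟩, ?_⟩ <;>
        · intro v h1 h2
          simp only [Set.mem_ofPred_eq] at h1 h2
          omega)
    have h0 := rcount M 6 2 (by norm_num)
    have h1 := rcount M 6 3 (by norm_num)
    have h2 := rcount M 6 4 (by norm_num)
    simp only [List.map_cons, List.map_nil, List.sum_cons, List.sum_nil] at h
    omega

/-- the separator -/
def Sep (x : ℕ) : Prop := x ≤ 3 ∨ (2 * x + 3).Prime

lemma sep_count (M : Model G f n) :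
    {v | Sep (f v)}.ncard ≤ Nat.primeCounting (2 * n + 3) + 4 := by
  have := M.finite
  have h1 : {v | f v ≤ 3}.ncard ≤ (Finset.range 4).card :=
    inj_le _ f _ M.inj.injOn (fun v hv => by
      rw [Finset.mem_range]
      have hv' : f v ≤ 3 := hv
      omega)
  have h2 : {v | (2 * f v + 3).Prime}.ncard ≤ (PS n).card :=
    inj_le _ (fun v => 2 * f v + 3) _ (fun a _ b _ h => M.inj (by simp only at h; omega))
      (fun v hv => by
        rw [mem_PS]
        have := M.le v
        exact ⟨by omega, hv⟩)
  have h3 : {v | Sep (f v)} = {v | f v ≤ 3} ∪ {v | (2 * f v + 3).Prime} := rfl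
  have h4 := Set.ncard_union_le {v | f v ≤ 3} {v | (2 * f v + 3).Prime}
  rw [Finset.card_range] at h1
  rw [PS_card] at h2
  rw [h3]
  omega

lemma sep (M : Model G f n) {u v : V} (hu : Half (f u)) (hu' : ¬ Sep (f u))
    (hv : ¬ Half (f v)) (hv' : ¬ Sep (f v)) : ¬ G.Adj u v := by
  intro h
  unfold Sep at hu' hv'
  push Not at hu' hv'
  rcases crossing M h hu hv with h1 | h1 | h1
  · exact hu'.2 h1.2
  · exact hv'.2 h1.2
  · omega

lemma cross_count (M : Model G f n) :
    {p : V × V | Half (f p.1) ∧ ¬ Half (f p.2) ∧ G.Adj p.1 p.2}.ncard ≤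
      Nat.primeCounting (2 * n + 3) + 2 := by
  have := M.finite
  have h1 : {p : V × V | (Half (f p.1) ∧ ¬ Half (f p.2) ∧ G.Adj p.1 p.2) ∧
      f p.1 + f p.2 = 3}.ncard ≤ (Finset.range 2).card := by
    apply inj_le _ (fun p => f p.1)
    · rintro ⟨a, b⟩ h1 ⟨c, d⟩ h2 h
      simp only [Set.mem_ofPred_eq] at h1 h2 h
      have e1 := M.inj h
      have e2 : f b = f d := by omega
      rw [e1, M.inj e2]
    · rintro ⟨a, b⟩ h1
      simp only [Set.mem_ofPred_eq, Half] at h1
      rw [Finset.mem_range]
      simp only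
      omega
  have h2 : {p : V × V | (Half (f p.1) ∧ ¬ Half (f p.2) ∧ G.Adj p.1 p.2) ∧
      f p.1 + f p.2 ≠ 3}.ncard ≤ (PS n).card := by
    apply inj_le _ (fun p => f p.1 + f p.2)
    · rintro ⟨a, b⟩ h1 ⟨c, d⟩ h2 h
      simp only [Set.mem_ofPred_eq] at h1 h2 h
      obtain ⟨⟨a1, a2, a3⟩, a4⟩ := h1
      obtain ⟨⟨b1, b2, b3⟩, b4⟩ := h2
      rcases crossing M a3 a1 a2 with c1 | c1 | c1
      · rcases crossing M b3 b1 b2 with c2 | c2 | c2
        · have e1 : f a = f c := by omega
          have e2 : f b = f d := by omega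
          rw [M.inj e1, M.inj e2]
        · have e1 : f a = f d := by omega
          rw [e1] at a1
          exact absurd a1 b2
        · exact absurd c2 b4
      · rcases crossing M b3 b1 b2 with c2 | c2 | c2
        · have e1 : f b = f c := by omega
          rw [e1] at a2
          exact absurd b1 a2
        · have e1 : f a = f c := by omega
          have e2 : f b = f d := by omega
          rw [M.inj e1, M.inj e2]
        · exact absurd c2 b4
      · exact absurd c1 a4
    · rintro ⟨a, b⟩ h1
      simp only [Set.mem_ofPred_eq] at h1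
      obtain ⟨⟨a1, a2, a3⟩, a4⟩ := h1
      have l1 := M.le a
      have l2 := M.le b
      rw [mem_PS]
      refine ⟨by simp only; omega, ?_⟩
      rcases crossing M a3 a1 a2 with c1 | c1 | c1
      · have : f a + f b = 2 * f a + 3 := by omega
        simp only
        rw [this]
        exact c1.2
      · have : f a + f b = 2 * f b + 3 := by omega
        simp only
        rw [this]
        exact c1.2
      · exact absurd c1 a4
  have h3 : {p : V × V | Half (f p.1) ∧ ¬ Half (f p.2) ∧ G.Adj p.1 p.2} ⊆
      {p : V × V | (Half (f p.1) ∧ ¬ Half (f p.2) ∧ G.Adj p.1 p.2) ∧ f p.1 + f p.2 = 3} ∪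
      {p : V × V | (Half (f p.1) ∧ ¬ Half (f p.2) ∧ G.Adj p.1 p.2) ∧ f p.1 + f p.2 ≠ 3} := by
    intro p hp
    by_cases h : f p.1 + f p.2 = 3
    · exact Or.inl ⟨hp, h⟩
    · exact Or.inr ⟨hp, h⟩
  have h4 := Set.ncard_le_ncard h3 (Set.toFinite _)
  have h5 := Set.ncard_union_le
    {p : V × V | (Half (f p.1) ∧ ¬ Half (f p.2) ∧ G.Adj p.1 p.2) ∧ f p.1 + f p.2 = 3}
    {p : V × V | (Half (f p.1) ∧ ¬ Half (f p.2) ∧ G.Adj p.1 p.2) ∧ f p.1 + f p.2 ≠ 3}
  rw [Finset.card_range] at h1
  rw [PS_card] at h2
  omega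

lemma shift_count (M : Model G f n) (c : ℕ) (hc : c ≤ n + 3) :
    {v | P (f v + c)}.ncard ≤ Nat.primeCounting (2 * n + 3) + 1 := by
  have := M.finite
  have h1 : {v | P (f v + c)}.ncard ≤ (insert 1 (PS n)).card := by
    apply inj_le _ (fun v => f v + c) _ (fun a _ b _ h => M.inj (by simp only at h; omega))
    intro v hv
    rw [Finset.mem_insert, mem_PS]
    have := M.le v
    rcases hv with hv | hv
    · exact Or.inl hv
    · exact Or.inr ⟨by omega, hv.1⟩
  have h2 := Finset.card_insert_le 1 (PS n)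
  rw [PS_card] at h2
  omega

lemma Gd_of {b x : ℕ} (h : Gd b x) : x % 3 ≠ 0 ∧ x % 2 = b := ⟨h.1.1, h.2⟩

/-- every vertex has many vertices at distance at least four -/
lemma far4 (M : Model G f n) (u : V) :
    n / 6 ≤ {v | 4 ≤ G.edist u v}.ncard + 4 * Nat.primeCounting (2 * n + 3) + 8 := by
  have := M.finite
  by_cases h3 : f u % 3 = 0
  · by_cases h0 : f u = 0
    · -- the vertex `0`
      have h1 : 2 * (n / 6) ≤ {v | Gd 0 (f v)}.ncard +
        (3 * Nat.primeCounting (2 * n + 3) + 6) := gcount M 0 (by norm_num)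
      have h2 := shift_count M 3 (by omega)
      have h4 : {v | Gd 0 (f v)} ⊆ {v | 4 ≤ G.edist u v} ∪ {v | P (f v + 3)} := by
        intro v hv
        by_cases hP : P (f v + 3)
        · exact Or.inr hP
        · left
          by_contra hcon
          simp only [Set.mem_ofPred_eq] at hcon
          push Not at hcon
          obtain ⟨w, hw⟩ := SimpleGraph.exists_walk_of_edist_ne_top (ne_top_of_lt hcon)
          rw [← hw] at hcon
          have hlen : w.length < 4 := by exact_mod_cast hcon
          clear hw hcon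
          have hv1 := hv.1
          have hv2 := hv.2
          cases w with
          | nil => exact hv1.1 h3
          | @cons _ x _ e1 w =>
            have p1 := M.par e1
            cases w with
            | nil => omega
            | @cons _ y _ e2 w =>
              have p2 := M.par e2
              cases w with
              | nil =>
                have g2 := good_edge hv1 (M.symm e2).1 (M.symm e2).2
                have g3 := (edge (M.adj _ _ e1).1 (M.adj _ _ e1).2).2.2 h3 g2.1
                have g4 : f x = 3 := by omega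
                have g5 := (M.symm e2).1
                rw [g4] at g5
                exact hP g5
              | @cons _ z _ e3 w =>
                have p3 := M.par e3
                cases w with
                | nil => omega
                | cons e5 w =>
                  simp only [SimpleGraph.Walk.length_cons] at hlen
                  omega
      have h5 := Set.ncard_le_ncard h4 (Set.toFinite _)
      have h6 := Set.ncard_union_le {v | 4 ≤ G.edist u v} {v | P (f v + 3)}
      omega
    · -- the other multiples of three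
      have hb : f u % 2 < 2 := Nat.mod_lt _ (by norm_num)
      have h1 : 2 * (n / 6) ≤ {v | Gd (f u % 2) (f v)}.ncard +
        (3 * Nat.primeCounting (2 * n + 3) + 6) := gcount M _ hb
      have h4 : {v | Gd (f u % 2) (f v)} ⊆ {v | 4 ≤ G.edist u v} := by
        intro v hv
        exact dist4' M (b := f u % 2) ⟨by omega, h0⟩ hv hb
      have h5 := Set.ncard_le_ncard h4 (Set.toFinite _)
      omega
  · -- not divisible by three
    have hb : f u % 2 < 2 := Nat.mod_lt _ (by norm_num)
    have hle := M.le u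
    have h1 : n / 6 ≤ {v | T (f u % 2) (f v)}.ncard := tcount M _ hb
    have s1 := shift_count M (f u + 3) (by omega)
    have s2 := shift_count M (f u - 3) (by omega)
    have s3 := shift_count M (3 - f u) (by omega)
    have s4 : {v | f v = 3}.ncard ≤ ({3} : Finset ℕ).card :=
      inj_le _ f _ M.inj.injOn (fun v hv => Finset.mem_singleton.2 hv)
    have h4 : {v | T (f u % 2) (f v)} ⊆ {v | 4 ≤ G.edist u v} ∪ ({v | P (f v + (f u + 3))} ∪
        ({v | P (f v + (f u - 3))} ∪ ({v | P (f v + (3 - f u))} ∪ {v | f v = 3}))) := by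
      intro v hv
      by_cases hP1 : P (f v + (f u + 3))
      · exact Or.inr (Or.inl hP1)
      by_cases hP2 : P (f v + (f u - 3))
      · exact Or.inr (Or.inr (Or.inl hP2))
      by_cases hP3 : P (f v + (3 - f u))
      · exact Or.inr (Or.inr (Or.inr (Or.inl hP3)))
      by_cases hP4 : f v = 3
      · exact Or.inr (Or.inr (Or.inr (Or.inr hP4)))
      left
      by_contra hcon
      simp only [Set.mem_ofPred_eq] at hcon
      push Not at hcon
      obtain ⟨w, hw⟩ := SimpleGraph.exists_walk_of_edist_ne_top (ne_top_of_lt hcon)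
      rw [← hw] at hcon
      have hlen : w.length < 4 := by exact_mod_cast hcon
      clear hw hcon
      have hv1 := hv.1
      have hv2 := hv.2
      have hb' : f u % 2 = 0 ∨ f u % 2 = 1 := by omega
      have hv3 : f v % 3 = 0 := by omega
      have hv4 : f v % 2 = f u % 2 := by
        rcases hb' with hb' | hb' <;> rw [hb'] at hv1 ⊢ <;> omega
      cases w with
      | nil => exact h3 hv3
      | @cons _ x _ e1 w =>
        have p1 := M.par e1
        cases w with
        | nil => omega
        | @cons _ y _ e2 w =>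
          have p2 := M.par e2
          cases w with
          | nil =>
            have g5 := (M.symm e2).1
            by_cases hx : f x % 3 = 0
            · have g3 := (edge (M.adj _ _ e2).1 (M.adj _ _ e2).2).2.2 hx hv3
              omega
            · rcases (edge (M.adj _ _ e1).1 (M.adj _ _ e1).2).2.1 h3 hx with g | g | g
              · rw [g.1] at g5
                exact hP1 g5
              · have : f x = f u - 3 := by omega
                rw [this] at g5
                exact hP2 g5
              · have : f x = 3 - f u := by omega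
                rw [this] at g5
                exact hP3 g5
          | @cons _ z _ e3 w =>
            have p3 := M.par e3
            cases w with
            | nil => omega
            | cons e5 w =>
              simp only [SimpleGraph.Walk.length_cons] at hlen
              omega
    have h5 := Set.ncard_le_ncard h4 (Set.toFinite _)
    have h6 := Set.ncard_union_le {v | 4 ≤ G.edist u v} ({v | P (f v + (f u + 3))} ∪
        ({v | P (f v + (f u - 3))} ∪ ({v | P (f v + (3 - f u))} ∪ {v | f v = 3})))
    have h7 := Set.ncard_union_le {v | P (f v + (f u + 3))}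
        ({v | P (f v + (f u - 3))} ∪ ({v | P (f v + (3 - f u))} ∪ {v | f v = 3}))
    have h8 := Set.ncard_union_le {v | P (f v + (f u - 3))}
        ({v | P (f v + (3 - f u))} ∪ {v | f v = 3})
    have h9 := Set.ncard_union_le {v | P (f v + (3 - f u))} {v | f v = 3}
    rw [Finset.card_singleton] at s4
    omega

end

/-! ### Chebyshev's bound -/

lemma pi_bound : ∀ᶠ n : ℕ in atTop,
    (Nat.primeCounting (2 * n + 3) : ℝ) + 7 ≤ 3 * n / Real.log n := by
  have h1 := Chebyshev.eventually_primeCounting_le (ε := 0.05) (by norm_num)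
  have h2 : Tendsto (fun n : ℕ => (2 * (n : ℝ) + 3)) atTop atTop := by
    apply tendsto_atTop_add_const_right
    exact Tendsto.const_mul_atTop (by norm_num) tendsto_natCast_atTop_atTop
  have h3 := h2.eventually h1
  have h4 : ∀ᶠ n : ℕ in atTop, Real.log (n : ℝ) ≤ 0.005 * (n : ℝ) := by
    have := (Real.isLittleO_log_id_atTop.comp_tendsto tendsto_natCast_atTop_atTop).bound
      (show (0 : ℝ) < 0.005 by norm_num)
    filter_upwards [this] with n hn
    simp only [Function.comp_apply, id_eq, Real.norm_eq_abs, Nat.abs_cast] at hn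
    exact (le_abs_self _).trans hn
  filter_upwards [h3, h4, eventually_ge_atTop 1000] with n h5 h6 h7
  have hn : (1000 : ℝ) ≤ n := by exact_mod_cast h7
  have hfl : ⌊(2 * (n : ℝ) + 3)⌋₊ = 2 * n + 3 := by
    have : (2 * (n : ℝ) + 3) = ((2 * n + 3 : ℕ) : ℝ) := by push_cast; ring
    rw [this, Nat.floor_natCast]
  rw [hfl] at h5
  have hlog : 0 < Real.log (n : ℝ) := Real.log_pos (by linarith)
  have hlog2 : Real.log (n : ℝ) ≤ Real.log (2 * (n : ℝ) + 3) :=
    Real.log_le_log (by linarith) (by linarith)
  have h4' : Real.log 4 ≤ 1.3863 := by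
    have : Real.log 4 = 2 * Real.log 2 := by
      rw [show (4 : ℝ) = 2 ^ 2 by norm_num, Real.log_pow]
      norm_num
    have := Real.log_two_lt_d9
    linarith
  have h4'' : 0 ≤ Real.log 4 := Real.log_nonneg (by norm_num)
  calc (Nat.primeCounting (2 * n + 3) : ℝ) + 7
      ≤ (Real.log 4 + 0.05) * (2 * (n : ℝ) + 3) / Real.log (2 * (n : ℝ) + 3) + 7 := by linarith
    _ ≤ (Real.log 4 + 0.05) * (2 * (n : ℝ) + 3) / Real.log n + 7 := by
        gcongr
    _ ≤ 3 * n / Real.log n := by
        rw [div_add' _ _ _ hlog.ne', div_le_div_iff_of_pos_right hlog]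
        nlinarith

lemma pi_small (δ : ℝ) (hδ : 0 < δ) : ∀ᶠ n : ℕ in atTop,
    3 * (Nat.primeCounting (2 * n + 3) : ℝ) + 12 ≤ δ * n := by
  have h1 : Tendsto (fun n : ℕ => Real.log (n : ℝ)) atTop atTop :=
    Real.tendsto_log_atTop.comp tendsto_natCast_atTop_atTop
  filter_upwards [pi_bound, h1.eventually_ge_atTop (9 / δ), eventually_ge_atTop 1] with n h2 h3 h4
  have hpos : 0 < 9 / δ := by positivity
  have hl : 0 < Real.log (n : ℝ) := by linarith
  have h5 : 3 * (n : ℝ) / Real.log n ≤ δ / 3 * n := by
    rw [div_le_iff₀ hl]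
    have h6 : 9 ≤ Real.log (n : ℝ) * δ := (div_le_iff₀ hδ).1 h3
    have h7 : (0 : ℝ) ≤ n := Nat.cast_nonneg n
    nlinarith
  linarith

end Pool.Agent.H480.GG
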